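import Pool.Agent.H258Z.Jack.Geg

/-! The rectangular two-row Jack polynomial as a Gegenbauer integral. -/

set_option autoImplicit false

namespace Pool.Agent.H258Z.Jack
open Finset

variable {n : ℕ}

/-- homogeneous polynomial of degree `d` with prescribed coefficients -/
noncomputable def mk (d : ℕ) (c : (Fin n →₀ ℕ) → ℝ) : MvPolynomial (Fin n) ℝ :=
  ∑ m ∈ Finset.finsuppAntidiag (univ : Finset (Fin n)) d, MvPolynomial.monomial m (c m)

lemma coeff_mk (d : ℕ) (c : (Fin n →₀ ℕ) → ℝ) (m : Fin n →₀ ℕ) :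
    MvPolynomial.coeff m (mk d c) = if ∑ i, m i = d then c m else 0 := by
  unfold mk
  rw [MvPolynomial.coeff_sum]
  simp only [MvPolynomial.coeff_monomial]
  rw [Finset.sum_ite_eq']
  simp [Finset.mem_finsuppAntidiag]

lemma coeff_theta (i : Fin n) (p : MvPolynomial (Fin n) ℝ) (m : Fin n →₀ ℕ) :
    MvPolynomial.coeff m (MvPolynomial.X i * MvPolynomial.pderiv i p) =
      m i * MvPolynomial.coeff m p := by
  rw [MvPolynomial.coeff_X_mul']
  split_ifs with h
  · rw [MvPolynomial.coeff_pderiv]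
    have h1 : m i ≠ 0 := Finsupp.mem_support_iff.1 h
    have h2 : Finsupp.single i 1 ≤ m := by
      rw [Finsupp.single_le_iff]; omega
    rw [tsub_add_cancel_of_le h2]
    simp only [Finsupp.coe_tsub, Pi.sub_apply, Finsupp.single_eq_same]
    rw [Nat.cast_sub (by omega)]
    push_cast; ring
  · have h1 : m i = 0 := by simpa using h
    simp [h1]

/-- product of Gegenbauer polynomials -/
noncomputable def P (τ : ℝ) (m : Fin n →₀ ℕ) : Polynomial ℝ := ∏ i, G τ (m i)

/-- product with two factors removed -/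
noncomputable def P2 (τ : ℝ) (i j : Fin n) (m : Fin n →₀ ℕ) : Polynomial ℝ :=
  ∏ k ∈ (univ.erase i).erase j, G τ (m k)

lemma P_eq (τ : ℝ) {i j : Fin n} (hij : i ≠ j) (m : Fin n →₀ ℕ) :
    P τ m = G τ (m i) * G τ (m j) * P2 τ i j m := by
  unfold P P2
  rw [← Finset.mul_prod_erase univ _ (mem_univ i),
    ← Finset.mul_prod_erase (univ.erase i) _ (a := j) (by simp [hij.symm]), mul_assoc]

lemma P2_comm (τ : ℝ) (i j : Fin n) (m : Fin n →₀ ℕ) : P2 τ i j m = P2 τ j i m := by
  unfold P2; rw [Finset.erase_right_comm]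

lemma P2_sub (τ : ℝ) (i j : Fin n) (m : Fin n →₀ ℕ) :
    P2 τ i j (m - Finsupp.single i 1) = P2 τ i j m := by
  unfold P2
  refine Finset.prod_congr rfl fun k hk => ?_
  have : k ≠ i := by
    simp only [mem_erase] at hk; exact hk.2.1
  simp [this.symm]

/-- the Jack polynomial (up to the scalar `κ`) -/
noncomputable def Jk (d : ℕ) (τ κ : ℝ) : MvPolynomial (Fin n) ℝ :=
  mk d (fun m => κ * L τ (P τ m))

/-- the divided difference -/
noncomputable def qk (d : ℕ) (τ κ : ℝ) (i j : Fin n) : MvPolynomial (Fin n) ℝ :=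
  mk d (fun m => κ / (2 * τ) * L τ (Q τ (m i) (m j) * P2 τ i j m))

lemma qk_comm (d : ℕ) (τ κ : ℝ) (i j : Fin n) : qk d τ κ i j = qk d τ κ j i := by
  unfold qk
  congr 1; funext m
  rw [Q_comm, P2_comm]

lemma Jk_symm (d : ℕ) (τ κ : ℝ) : (Jk (n := n) d τ κ).IsSymmetric := by
  intro e
  ext m
  have hm : m = (m.mapDomain e.symm).mapDomain e := by
    rw [← Finsupp.mapDomain_comp]; simp
  rw [hm, MvPolynomial.coeff_rename_mapDomain _ e.injective, ← hm]
  unfold Jk
  rw [coeff_mk, coeff_mk]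
  have h1 : ∀ i, (m.mapDomain e.symm) i = m (e i) := by
    intro i; rw [Finsupp.mapDomain_equiv_apply]; simp
  have h2 : ∑ i, (m.mapDomain e.symm) i = ∑ i, m i := by
    simp only [h1]; exact Equiv.sum_comp e (fun i => m i)
  have h3 : P τ (m.mapDomain e.symm) = P τ m := by
    unfold P; simp only [h1]; exact Equiv.prod_comp e (fun i => G τ (m i))
  rw [h2, h3]

lemma sum_sub_single (i : Fin n) (m : Fin n →₀ ℕ) (h : m i ≠ 0) :
    ∑ k, (m - Finsupp.single i 1 : Fin n →₀ ℕ) k + 1 = ∑ k, m k := by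
  have h2 : Finsupp.single i 1 ≤ m := by
    rw [Finsupp.single_le_iff]; omega
  conv_rhs => rw [← tsub_add_cancel_of_le h2]
  simp only [Finsupp.coe_add, Pi.add_apply, Finset.sum_add_distrib]
  congr 1
  simp [Finsupp.single_apply]

/-- auxiliary polynomial -/
noncomputable def Aux (τ : ℝ) : ℕ → ℕ → Polynomial ℝ
  | 0, _ => 0
  | a + 1, b => Q τ a b - Polynomial.C (2 * τ * a) * (G τ a * G τ b)

lemma Aux_comm (τ : ℝ) (a b : ℕ) : Aux τ a b = Aux τ b a := by
  rcases a with _ | a <;> rcases b with _ | b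
  · rfl
  · simp only [Aux]; rw [Q_zero]
  · simp only [Aux]; rw [Q_zero]
  · simp only [Aux]
    rw [Q_step, Q_comm, mul_comm (G τ (a + 1))]

lemma coeff_side {τ : ℝ} (hτ : 0 < τ) (d : ℕ) (κ : ℝ) {i j : Fin n} (hij : i ≠ j)
    (m : Fin n →₀ ℕ) :
    MvPolynomial.coeff m (MvPolynomial.X i * (qk d τ κ i j -
      MvPolynomial.X i * MvPolynomial.pderiv i (Jk d τ κ))) =
    if ∑ k, m k = d + 1 then κ / (2 * τ) * L τ (Aux τ (m i) (m j) * P2 τ i j m) else 0 := by
  rw [MvPolynomial.coeff_X_mul']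
  by_cases h : m i = 0
  · rw [if_neg (by simp [h]), h]; simp [Aux]
  rw [if_pos (by simp [h]), MvPolynomial.coeff_sub, coeff_theta]
  unfold qk Jk
  rw [coeff_mk, coeff_mk]
  have hs := sum_sub_single i m h
  obtain ⟨a, ha⟩ := Nat.exists_eq_succ_of_ne_zero h
  have e1 : (m - Finsupp.single i 1 : Fin n →₀ ℕ) i = a := by simp [ha]
  have e2 : (m - Finsupp.single i 1 : Fin n →₀ ℕ) j = m j := by
    simp [hij]
  by_cases h2 : ∑ k, m k = d + 1
  · rw [if_pos (by omega), if_pos (by omega), if_pos h2, P_eq τ hij, P2_sub, e1, e2, ha]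
    simp only [Aux]
    rw [sub_mul, map_sub, mul_assoc (Polynomial.C _), L_C_mul]
    field_simp
  · rw [if_neg (by omega), if_neg (by omega), if_neg h2]; simp

lemma div_diff {τ : ℝ} (hτ : 0 < τ) (d : ℕ) (κ : ℝ) {i j : Fin n} (hij : i ≠ j) :
    (MvPolynomial.X i - MvPolynomial.X j) * qk d τ κ i j =
      MvPolynomial.X i ^ 2 * MvPolynomial.pderiv i (Jk d τ κ)
        - MvPolynomial.X j ^ 2 * MvPolynomial.pderiv j (Jk d τ κ) := by
  have h : MvPolynomial.X i * (qk d τ κ i j -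
      MvPolynomial.X i * MvPolynomial.pderiv i (Jk d τ κ)) =
      MvPolynomial.X j * (qk d τ κ j i -
      MvPolynomial.X j * MvPolynomial.pderiv j (Jk d τ κ)) := by
    ext m
    rw [coeff_side hτ d κ hij, coeff_side hτ d κ hij.symm, Aux_comm, P2_comm]
  rw [qk_comm d τ κ j i] at h
  linear_combination h

lemma sum_pairs {M : Type*} [AddCommMonoid M] (g : Fin n → Fin n → M) (hg : ∀ i j, g i j = g j i) :
    ∑ i, ∑ j ∈ univ.erase i, g i j =
      (∑ i, ∑ j, if i < j then g i j else 0) + (∑ i, ∑ j, if i < j then g i j else 0) := by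
  conv_rhs => enter [2]; rw [Finset.sum_comm]
  rw [← Finset.sum_add_distrib]
  refine Finset.sum_congr rfl fun i _ => ?_
  rw [← Finset.sum_add_distrib, ← Finset.sum_erase_add univ _ (mem_univ i)]
  simp only [lt_irrefl, if_false, add_zero]
  refine Finset.sum_congr rfl fun j hj => ?_
  have hne : j ≠ i := (mem_erase.1 hj).1
  rcases lt_or_gt_of_ne hne with h | h
  · rw [if_neg (not_lt.2 h.le), if_pos h, zero_add, hg]
  · rw [if_pos h, if_neg (not_lt.2 h.le), add_zero]

lemma T_P (τ : ℝ) (m : Fin n →₀ ℕ) : T τ (P τ m) =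
    - Polynomial.C (∑ i, (m i : ℝ) * (m i + 2 * τ)) * P τ m +
    ∑ i, ∑ j ∈ univ.erase i, (1 - Polynomial.X ^ 2) * Polynomial.derivative (G τ (m i)) *
      Polynomial.derivative (G τ (m j)) * P2 τ i j m := by
  have hP : ∀ i, P τ m = (∏ k ∈ univ.erase i, G τ (m k)) * G τ (m i) := fun i => by
    unfold P; rw [Finset.prod_erase_mul _ _ (mem_univ i)]
  unfold T
  conv_lhs => unfold P
  rw [Polynomial.derivative_prod_finset, Polynomial.derivative_sum, map_sum, Finset.mul_sum,
    Finset.mul_sum, neg_mul, Finset.sum_mul, ← Finset.sum_sub_distrib, ← Finset.sum_neg_distrib,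
    ← Finset.sum_add_distrib]
  refine Finset.sum_congr rfl fun i _ => ?_
  rw [Polynomial.derivative_mul, Polynomial.derivative_prod_finset, hP i]
  have h := ode τ (m i)
  unfold T at h
  have e : ∑ j ∈ univ.erase i, (1 - Polynomial.X ^ 2) * Polynomial.derivative (G τ (m i)) *
      Polynomial.derivative (G τ (m j)) * P2 τ i j m =
      (1 - Polynomial.X ^ 2) * ((∑ a ∈ univ.erase i, (∏ b ∈ (univ.erase i).erase a, G τ (m b)) *
        Polynomial.derivative (G τ (m a))) * Polynomial.derivative (G τ (m i))) := by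
    rw [Finset.sum_mul, Finset.mul_sum]
    refine Finset.sum_congr rfl fun j _ => ?_
    unfold P2; ring
  rw [e]
  linear_combination (∏ k ∈ univ.erase i, G τ (m k)) * h

lemma eigen {τ : ℝ} (hτ : 0 < τ) (d : ℕ) (κ : ℝ) :
    ∑ i : Fin n, MvPolynomial.X i ^ 2 * MvPolynomial.pderiv i (MvPolynomial.pderiv i (Jk d τ κ))
      + MvPolynomial.C (2 * τ) * ∑ i : Fin n, ∑ j : Fin n, (if i < j then qk d τ κ i j else 0)
      = MvPolynomial.C ((d : ℝ) ^ 2 / 2 - d + (2 * n - 3) * τ * d) * Jk d τ κ := by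
  ext m
  have h1 : ∀ i : Fin n, MvPolynomial.X i ^ 2 *
      MvPolynomial.pderiv i (MvPolynomial.pderiv i (Jk d τ κ)) =
      MvPolynomial.X i * MvPolynomial.pderiv i
        (MvPolynomial.X i * MvPolynomial.pderiv i (Jk d τ κ)) -
      MvPolynomial.X i * MvPolynomial.pderiv i (Jk d τ κ) := by
    intro i
    rw [Derivation.leibniz]
    simp only [MvPolynomial.pderiv_X_self, smul_eq_mul]
    ring
  simp only [h1, MvPolynomial.coeff_add, MvPolynomial.coeff_sum, MvPolynomial.coeff_sub,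
    coeff_theta, MvPolynomial.coeff_C_mul]
  have h2 : ∀ i j : Fin n, MvPolynomial.coeff m (if i < j then qk d τ κ i j else 0) =
      if i < j then MvPolynomial.coeff m (qk d τ κ i j) else 0 := by
    intro i j; split_ifs <;> simp
  simp only [h2]
  have h3 := sum_pairs (fun i j => MvPolynomial.coeff m (qk d τ κ i j))
    (fun i j => by rw [qk_comm])
  by_cases hd : ∑ i, m i = d
  swap
  · simp [Jk, qk, coeff_mk, hd]
  have hJ : MvPolynomial.coeff m (Jk (n := n) d τ κ) = κ * L τ (P τ m) := by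
    unfold Jk; rw [coeff_mk, if_pos hd]
  have hT := L_T hτ (P τ m)
  rw [T_P, map_add, ← map_neg, L_C_mul, map_sum] at hT
  simp only [map_sum] at hT
  have hq : ∀ i, ∀ j ∈ univ.erase i, 2 * τ * MvPolynomial.coeff m (qk d τ κ i j) =
      (2 * τ * ((m i : ℝ) + m j) + m i * m j) * (κ * L τ (P τ m)) -
      κ * L τ ((1 - Polynomial.X ^ 2) * Polynomial.derivative (G τ (m i)) *
      Polynomial.derivative (G τ (m j)) * P2 τ i j m) := by
    intro i j hj
    have hne : i ≠ j := (mem_erase.1 hj).1.symm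
    unfold qk
    rw [coeff_mk, if_pos hd, Q, sub_mul, map_sub, P_eq τ hne, mul_assoc (Polynomial.C _),
      mul_assoc (Polynomial.C _), L_C_mul]
    field_simp
  have h4 : 2 * τ * ∑ i, ∑ j ∈ univ.erase i, MvPolynomial.coeff m (qk d τ κ i j) =
      (∑ i, ∑ j ∈ univ.erase i, (2 * τ * ((m i : ℝ) + m j) + m i * m j)) * (κ * L τ (P τ m)) -
      κ * ∑ i, ∑ j ∈ univ.erase i, L τ ((1 - Polynomial.X ^ 2) *
        Polynomial.derivative (G τ (m i)) * Polynomial.derivative (G τ (m j)) * P2 τ i j m) := by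
    rw [Finset.mul_sum, Finset.sum_mul, Finset.mul_sum, ← Finset.sum_sub_distrib]
    refine Finset.sum_congr rfl fun i _ => ?_
    rw [Finset.mul_sum, Finset.sum_mul, Finset.mul_sum, ← Finset.sum_sub_distrib]
    exact Finset.sum_congr rfl (hq i)
  have hdR : ∑ i, (m i : ℝ) = d := by exact_mod_cast hd
  have h5 : ∑ i, ∑ j ∈ univ.erase i, (2 * τ * ((m i : ℝ) + m j) + m i * m j) =
      4 * τ * (n - 1) * d + d ^ 2 - ∑ i, (m i : ℝ) * m i := by
    have : ∀ i, ∑ j ∈ univ.erase i, (2 * τ * ((m i : ℝ) + m j) + m i * m j) =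
        2 * τ * d + (2 * τ * (n - 2) + d) * m i - (m i : ℝ) * m i := by
      intro i
      have := Finset.add_sum_erase univ (fun j => 2 * τ * ((m i : ℝ) + m j) + m i * m j)
        (mem_univ i)
      simp only [Finset.sum_add_distrib, ← Finset.mul_sum, hdR, Finset.sum_const, card_univ,
        Fintype.card_fin, nsmul_eq_mul] at this ⊢
      linarith
    simp only [this, Finset.sum_sub_distrib, Finset.sum_add_distrib, ← Finset.mul_sum, hdR,
      Finset.sum_const, card_univ, Fintype.card_fin, nsmul_eq_mul]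
    ring
  have h6 : ∑ i, (m i : ℝ) * (m i + 2 * τ) = ∑ i, (m i : ℝ) * m i + 2 * τ * d := by
    simp only [mul_add, Finset.sum_add_distrib, ← Finset.sum_mul, hdR]; ring
  have h7 : ∑ i, ((m i : ℝ) * (m i * (κ * L τ (P τ m))) - m i * (κ * L τ (P τ m))) =
      (∑ i, (m i : ℝ) * m i - d) * (κ * L τ (P τ m)) := by
    rw [← hdR, ← Finset.sum_sub_distrib, Finset.sum_mul]
    exact Finset.sum_congr rfl fun i _ => by ring
  rw [hJ, h7]
  rw [h5, h3] at h4
  rw [h6] at hT
  linear_combination (1 / 2) * h4 - κ / 2 * hT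

lemma Jk_support {τ : ℝ} (hτ : 0 < τ) (d r : ℕ) (hdr : d = 2 * r) (κ : ℝ) (m : Fin n →₀ ℕ)
    (hm : m ∈ (Jk (n := n) d τ κ).support) : ∑ i, m i = d ∧ ∀ i, m i ≤ r := by
  subst hdr
  rw [MvPolynomial.mem_support_iff] at hm
  unfold Jk at hm
  rw [coeff_mk] at hm
  have hd : ∑ i, m i = 2 * r := by
    by_contra h; exact hm (if_neg h)
  refine ⟨hd, fun i => ?_⟩
  by_contra hi
  apply hm
  rw [if_pos hd]
  unfold P
  rw [← Finset.mul_prod_erase univ _ (mem_univ i), orth hτ, mul_zero]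
  refine (Polynomial.natDegree_prod_le _ _).trans_lt ?_
  have h1 : ∑ k ∈ univ.erase i, (G τ (m k)).natDegree ≤ ∑ k ∈ univ.erase i, m k :=
    Finset.sum_le_sum fun k _ => natDegree_G τ _
  have h2 := Finset.add_sum_erase univ (fun k => m k) (mem_univ i)
  omega

end Pool.Agent.H258Z.Jack
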