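import Pool.Agent.H258Z.Jack.Geg

/-! Explicit computations with Gegenbauer polynomials. -/

set_option autoImplicit false

namespace Pool.Agent.H258Z.Jack
open Polynomial Finset

lemma hx0 (τ u : ℝ) : eval u (G τ 0) = 1 := by simp [G_zero]

lemma hx1 (τ u : ℝ) : eval u (G τ 1) = 2 * τ * u := by simp [G_one]

lemma hx2 (τ u : ℝ) : eval u (G τ 2) =
      ((-1) * τ ^ 1) * u ^ 0 +
      (2 * τ ^ 1 + 2 * τ ^ 2) * u ^ 2 := by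
  rw [eval_three τ u 0, hx1, hx0]; push_cast; ring

lemma hx3 (τ u : ℝ) : eval u (G τ 3) =
      ((-2) * τ ^ 1 + (-2) * τ ^ 2) * u ^ 1 +
      ((8 / 3) * τ ^ 1 + 4 * τ ^ 2 + (4 / 3) * τ ^ 3) * u ^ 3 := by
  rw [eval_three τ u 1, hx2, hx1]; push_cast; ring

lemma hx4 (τ u : ℝ) : eval u (G τ 4) =
      ((1 / 2) * τ ^ 1 + (1 / 2) * τ ^ 2) * u ^ 0 +
      ((-4) * τ ^ 1 + (-6) * τ ^ 2 + (-2) * τ ^ 3) * u ^ 2 +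
      (4 * τ ^ 1 + (22 / 3) * τ ^ 2 + 4 * τ ^ 3 + (2 / 3) * τ ^ 4) * u ^ 4 := by
  rw [eval_three τ u 2, hx3, hx2]; push_cast; ring

lemma hx5 (τ u : ℝ) : eval u (G τ 5) =
      (2 * τ ^ 1 + 3 * τ ^ 2 + 1 * τ ^ 3) * u ^ 1 +
      ((-8) * τ ^ 1 + (-44 / 3) * τ ^ 2 + (-8) * τ ^ 3 + (-4 / 3) * τ ^ 4) * u ^ 3 +
      ((32 / 5) * τ ^ 1 + (40 / 3) * τ ^ 2 + (28 / 3) * τ ^ 3 + (8 / 3) * τ ^ 4 + (4 / 15) * τ ^ 5) * u ^ 5 := by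
  rw [eval_three τ u 3, hx4, hx3]; push_cast; ring

lemma hx6 (τ u : ℝ) : eval u (G τ 6) =
      ((-1 / 3) * τ ^ 1 + (-1 / 2) * τ ^ 2 + (-1 / 6) * τ ^ 3) * u ^ 0 +
      (6 * τ ^ 1 + 11 * τ ^ 2 + 6 * τ ^ 3 + 1 * τ ^ 4) * u ^ 2 +
      ((-16) * τ ^ 1 + (-100 / 3) * τ ^ 2 + (-70 / 3) * τ ^ 3 + (-20 / 3) * τ ^ 4 + (-2 / 3) * τ ^ 5) * u ^ 4 +
      ((32 / 3) * τ ^ 1 + (1096 / 45) * τ ^ 2 + 20 * τ ^ 3 + (68 / 9) * τ ^ 4 + (4 / 3) * τ ^ 5 + (4 / 45) * τ ^ 6) * u ^ 6 := by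
  rw [eval_three τ u 4, hx5, hx4]; push_cast; ring

lemma hx7 (τ u : ℝ) : eval u (G τ 7) =
      ((-2) * τ ^ 1 + (-11 / 3) * τ ^ 2 + (-2) * τ ^ 3 + (-1 / 3) * τ ^ 4) * u ^ 1 +
      (16 * τ ^ 1 + (100 / 3) * τ ^ 2 + (70 / 3) * τ ^ 3 + (20 / 3) * τ ^ 4 + (2 / 3) * τ ^ 5) * u ^ 3 +
      ((-32) * τ ^ 1 + (-1096 / 15) * τ ^ 2 + (-60) * τ ^ 3 + (-68 / 3) * τ ^ 4 + (-4) * τ ^ 5 + (-4 / 15) * τ ^ 6) * u ^ 5 +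
      ((128 / 7) * τ ^ 1 + (224 / 5) * τ ^ 2 + (1856 / 45) * τ ^ 3 + (56 / 3) * τ ^ 4 + (40 / 9) * τ ^ 5 + (8 / 15) * τ ^ 6 + (8 / 315) * τ ^ 7) * u ^ 7 := by
  rw [eval_three τ u 5, hx6, hx5]; push_cast; ring

lemma hx8 (τ u : ℝ) : eval u (G τ 8) =
      ((1 / 4) * τ ^ 1 + (11 / 24) * τ ^ 2 + (1 / 4) * τ ^ 3 + (1 / 24) * τ ^ 4) * u ^ 0 +
      ((-8) * τ ^ 1 + (-50 / 3) * τ ^ 2 + (-35 / 3) * τ ^ 3 + (-10 / 3) * τ ^ 4 + (-1 / 3) * τ ^ 5) * u ^ 2 +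
      (40 * τ ^ 1 + (274 / 3) * τ ^ 2 + 75 * τ ^ 3 + (85 / 3) * τ ^ 4 + 5 * τ ^ 5 + (1 / 3) * τ ^ 6) * u ^ 4 +
      ((-64) * τ ^ 1 + (-784 / 5) * τ ^ 2 + (-6496 / 45) * τ ^ 3 + (-196 / 3) * τ ^ 4 + (-140 / 9) * τ ^ 5 + (-28 / 15) * τ ^ 6 + (-4 / 45) * τ ^ 7) * u ^ 6 +
      (32 * τ ^ 1 + (2904 / 35) * τ ^ 2 + (3752 / 45) * τ ^ 3 + (1934 / 45) * τ ^ 4 + (112 / 9) * τ ^ 5 + (92 / 45) * τ ^ 6 + (8 / 45) * τ ^ 7 + (2 / 315) * τ ^ 8) * u ^ 8 := by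
  rw [eval_three τ u 6, hx7, hx6]; push_cast; ring

lemma hx9 (τ u : ℝ) : eval u (G τ 9) =
      (2 * τ ^ 1 + (25 / 6) * τ ^ 2 + (35 / 12) * τ ^ 3 + (5 / 6) * τ ^ 4 + (1 / 12) * τ ^ 5) * u ^ 1 +
      ((-80 / 3) * τ ^ 1 + (-548 / 9) * τ ^ 2 + (-50) * τ ^ 3 + (-170 / 9) * τ ^ 4 + (-10 / 3) * τ ^ 5 + (-2 / 9) * τ ^ 6) * u ^ 3 +
      (96 * τ ^ 1 + (1176 / 5) * τ ^ 2 + (3248 / 15) * τ ^ 3 + 98 * τ ^ 4 + (70 / 3) * τ ^ 5 + (14 / 5) * τ ^ 6 + (2 / 15) * τ ^ 7) * u ^ 5 +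
      ((-128) * τ ^ 1 + (-11616 / 35) * τ ^ 2 + (-15008 / 45) * τ ^ 3 + (-7736 / 45) * τ ^ 4 + (-448 / 9) * τ ^ 5 + (-368 / 45) * τ ^ 6 + (-32 / 45) * τ ^ 7 + (-8 / 315) * τ ^ 8) * u ^ 7 +
      ((512 / 9) * τ ^ 1 + (48704 / 315) * τ ^ 2 + (472496 / 2835) * τ ^ 3 + (1424 / 15) * τ ^ 4 + (4276 / 135) * τ ^ 5 + (32 / 5) * τ ^ 6 + (104 / 135) * τ ^ 7 + (16 / 315) * τ ^ 8 + (4 / 2835) * τ ^ 9) * u ^ 9 := by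
  rw [eval_three τ u 7, hx8, hx7]; push_cast; ring

lemma ex (τ u : ℝ) (e : ℕ → ℝ)
    (conv : ∀ r, ∑ k ∈ range (r + 1), eval u (G τ k) * e (r - k) = if r = 0 then 1 else 0) :
    e 8 ^ 2 - e 9 * e 7 =
      ((1 / 16) * τ ^ 2 + (-11 / 48) * τ ^ 3 + (193 / 576) * τ ^ 4 + (-1 / 4) * τ ^ 5 + (29 / 288) * τ ^ 6 + (-1 / 48) * τ ^ 7 + (1 / 576) * τ ^ 8) * u ^ 0 +
      ((-4 / 3) * τ ^ 2 + (35 / 9) * τ ^ 3 + (-85 / 27) * τ ^ 4 + (-5 / 4) * τ ^ 5 + (131 / 36) * τ ^ 6 + (-5 / 2) * τ ^ 7 + (5 / 6) * τ ^ 8 + (-5 / 36) * τ ^ 9 + (1 / 108) * τ ^ 10) * u ^ 4 +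
      ((32 / 3) * τ ^ 2 + (-1496 / 45) * τ ^ 3 + (848 / 27) * τ ^ 4 + (134 / 27) * τ ^ 5 + (-280 / 9) * τ ^ 6 + (1162 / 45) * τ ^ 7 + (-32 / 3) * τ ^ 8 + (22 / 9) * τ ^ 9 + (-8 / 27) * τ ^ 10 + (2 / 135) * τ ^ 11) * u ^ 6 +
      ((-880 / 21) * τ ^ 2 + (8780 / 63) * τ ^ 3 + (-142406 / 945) * τ ^ 4 + (397 / 63) * τ ^ 5 + (47741 / 378) * τ ^ 6 + (-127) * τ ^ 7 + (39763 / 630) * τ ^ 8 + (-1157 / 63) * τ ^ 9 + (1199 / 378) * τ ^ 10 + (-19 / 63) * τ ^ 11 + (23 / 1890) * τ ^ 12) * u ^ 8 +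
      ((5632 / 63) * τ ^ 2 + (-297344 / 945) * τ ^ 3 + (767552 / 2025) * τ ^ 4 + (-3209312 / 42525) * τ ^ 5 + (-757328 / 2835) * τ ^ 6 + (2748304 / 8505) * τ ^ 7 + (-294352 / 1575) * τ ^ 8 + (921968 / 14175) * τ ^ 9 + (-5776 / 405) * τ ^ 10 + (16432 / 8505) * τ ^ 11 + (-2096 / 14175) * τ ^ 12 + (208 / 42525) * τ ^ 13) * u ^ 10 +
      ((-6656 / 63) * τ ^ 2 + (369664 / 945) * τ ^ 3 + (-7312288 / 14175) * τ ^ 4 + (290512 / 1701) * τ ^ 5 + (12746024 / 42525) * τ ^ 6 + (-3739028 / 8505) * τ ^ 7 + (12349948 / 42525) * τ ^ 8 + (-331628 / 2835) * τ ^ 9 + (436244 / 14175) * τ ^ 10 + (-45308 / 8505) * τ ^ 11 + (24916 / 42525) * τ ^ 12 + (-316 / 8505) * τ ^ 13 + (44 / 42525) * τ ^ 14) * u ^ 12 +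
      ((4096 / 63) * τ ^ 2 + (-1667072 / 6615) * τ ^ 3 + (5091584 / 14175) * τ ^ 4 + (-6805376 / 42525) * τ ^ 5 + (-786368 / 4725) * τ ^ 6 + (1838368 / 6075) * τ ^ 7 + (-456704 / 2025) * τ ^ 8 + (30607744 / 297675) * τ ^ 9 + (-444032 / 14175) * τ ^ 10 + (277568 / 42525) * τ ^ 11 + (-4352 / 4725) * τ ^ 12 + (512 / 6075) * τ ^ 13 + (-64 / 14175) * τ ^ 14 + (32 / 297675) * τ ^ 15) * u ^ 14 +
      ((-1024 / 63) * τ ^ 2 + (144896 / 2205) * τ ^ 3 + (-9952192 / 99225) * τ ^ 4 + (779264 / 14175) * τ ^ 5 + (4457312 / 127575) * τ ^ 6 + (-3512032 / 42525) * τ ^ 7 + (251476 / 3645) * τ ^ 8 + (-10449248 / 297675) * τ ^ 9 + (10819472 / 893025) * τ ^ 10 + (-41632 / 14175) * τ ^ 11 + (64072 / 127575) * τ ^ 12 + (-2528 / 42525) * τ ^ 13 + (592 / 127575) * τ ^ 14 + (-64 / 297675) * τ ^ 15 + (4 / 893025)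 * τ ^ 16) * u ^ 16 := by
  have e0 : e 0 = 1 := by simpa [G_zero] using conv 0
  have c1 := conv 1
  simp only [Finset.sum_range_succ, Finset.sum_range_zero, hx0, hx1, Nat.reduceSub, e0] at c1
  have e1 : e 1 =
      ((-2) * τ ^ 1) * u ^ 1 := by
    rw [if_neg (by norm_num)] at c1
    linear_combination c1
  have c2 := conv 2
  simp only [Finset.sum_range_succ, Finset.sum_range_zero, hx0, hx1, hx2, Nat.reduceSub, e0, e1] at c2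
  have e2 : e 2 =
      (1 * τ ^ 1) * u ^ 0 +
      ((-2) * τ ^ 1 + 2 * τ ^ 2) * u ^ 2 := by
    rw [if_neg (by norm_num)] at c2
    linear_combination c2
  have c3 := conv 3
  simp only [Finset.sum_range_succ, Finset.sum_range_zero, hx0, hx1, hx2, hx3, Nat.reduceSub, e0, e1, e2] at c3
  have e3 : e 3 =
      (2 * τ ^ 1 + (-2) * τ ^ 2) * u ^ 1 +
      ((-8 / 3) * τ ^ 1 + 4 * τ ^ 2 + (-4 / 3) * τ ^ 3) * u ^ 3 := by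
    rw [if_neg (by norm_num)] at c3
    linear_combination c3
  have c4 := conv 4
  simp only [Finset.sum_range_succ, Finset.sum_range_zero, hx0, hx1, hx2, hx3, hx4, Nat.reduceSub, e0, e1, e2, e3] at c4
  have e4 : e 4 =
      ((-1 / 2) * τ ^ 1 + (1 / 2) * τ ^ 2) * u ^ 0 +
      (4 * τ ^ 1 + (-6) * τ ^ 2 + 2 * τ ^ 3) * u ^ 2 +
      ((-4) * τ ^ 1 + (22 / 3) * τ ^ 2 + (-4) * τ ^ 3 + (2 / 3) * τ ^ 4) * u ^ 4 := by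
    rw [if_neg (by norm_num)] at c4
    linear_combination c4
  have c5 := conv 5
  simp only [Finset.sum_range_succ, Finset.sum_range_zero, hx0, hx1, hx2, hx3, hx4, hx5, Nat.reduceSub, e0, e1, e2, e3, e4] at c5
  have e5 : e 5 =
      ((-2) * τ ^ 1 + 3 * τ ^ 2 + (-1) * τ ^ 3) * u ^ 1 +
      (8 * τ ^ 1 + (-44 / 3) * τ ^ 2 + 8 * τ ^ 3 + (-4 / 3) * τ ^ 4) * u ^ 3 +
      ((-32 / 5) * τ ^ 1 + (40 / 3) * τ ^ 2 + (-28 / 3) * τ ^ 3 + (8 / 3) * τ ^ 4 + (-4 / 15) * τ ^ 5) * u ^ 5 := by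
    rw [if_neg (by norm_num)] at c5
    linear_combination c5
  have c6 := conv 6
  simp only [Finset.sum_range_succ, Finset.sum_range_zero, hx0, hx1, hx2, hx3, hx4, hx5, hx6, Nat.reduceSub, e0, e1, e2, e3, e4, e5] at c6
  have e6 : e 6 =
      ((1 / 3) * τ ^ 1 + (-1 / 2) * τ ^ 2 + (1 / 6) * τ ^ 3) * u ^ 0 +
      ((-6) * τ ^ 1 + 11 * τ ^ 2 + (-6) * τ ^ 3 + 1 * τ ^ 4) * u ^ 2 +
      (16 * τ ^ 1 + (-100 / 3) * τ ^ 2 + (70 / 3) * τ ^ 3 + (-20 / 3) * τ ^ 4 + (2 / 3) * τ ^ 5) * u ^ 4 +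
      ((-32 / 3) * τ ^ 1 + (1096 / 45) * τ ^ 2 + (-20) * τ ^ 3 + (68 / 9) * τ ^ 4 + (-4 / 3) * τ ^ 5 + (4 / 45) * τ ^ 6) * u ^ 6 := by
    rw [if_neg (by norm_num)] at c6
    linear_combination c6
  have c7 := conv 7
  simp only [Finset.sum_range_succ, Finset.sum_range_zero, hx0, hx1, hx2, hx3, hx4, hx5, hx6, hx7, Nat.reduceSub, e0, e1, e2, e3, e4, e5, e6] at c7
  have e7 : e 7 =
      (2 * τ ^ 1 + (-11 / 3) * τ ^ 2 + 2 * τ ^ 3 + (-1 / 3) * τ ^ 4) * u ^ 1 +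
      ((-16) * τ ^ 1 + (100 / 3) * τ ^ 2 + (-70 / 3) * τ ^ 3 + (20 / 3) * τ ^ 4 + (-2 / 3) * τ ^ 5) * u ^ 3 +
      (32 * τ ^ 1 + (-1096 / 15) * τ ^ 2 + 60 * τ ^ 3 + (-68 / 3) * τ ^ 4 + 4 * τ ^ 5 + (-4 / 15) * τ ^ 6) * u ^ 5 +
      ((-128 / 7) * τ ^ 1 + (224 / 5) * τ ^ 2 + (-1856 / 45) * τ ^ 3 + (56 / 3) * τ ^ 4 + (-40 / 9) * τ ^ 5 + (8 / 15) * τ ^ 6 + (-8 / 315) * τ ^ 7) * u ^ 7 := by
    rw [if_neg (by norm_num)] at c7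
    linear_combination c7
  have c8 := conv 8
  simp only [Finset.sum_range_succ, Finset.sum_range_zero, hx0, hx1, hx2, hx3, hx4, hx5, hx6, hx7, hx8, Nat.reduceSub, e0, e1, e2, e3, e4, e5, e6, e7] at c8
  have e8 : e 8 =
      ((-1 / 4) * τ ^ 1 + (11 / 24) * τ ^ 2 + (-1 / 4) * τ ^ 3 + (1 / 24) * τ ^ 4) * u ^ 0 +
      (8 * τ ^ 1 + (-50 / 3) * τ ^ 2 + (35 / 3) * τ ^ 3 + (-10 / 3) * τ ^ 4 + (1 / 3) * τ ^ 5) * u ^ 2 +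
      ((-40) * τ ^ 1 + (274 / 3) * τ ^ 2 + (-75) * τ ^ 3 + (85 / 3) * τ ^ 4 + (-5) * τ ^ 5 + (1 / 3) * τ ^ 6) * u ^ 4 +
      (64 * τ ^ 1 + (-784 / 5) * τ ^ 2 + (6496 / 45) * τ ^ 3 + (-196 / 3) * τ ^ 4 + (140 / 9) * τ ^ 5 + (-28 / 15) * τ ^ 6 + (4 / 45) * τ ^ 7) * u ^ 6 +
      ((-32) * τ ^ 1 + (2904 / 35) * τ ^ 2 + (-3752 / 45) * τ ^ 3 + (1934 / 45) * τ ^ 4 + (-112 / 9) * τ ^ 5 + (92 / 45) * τ ^ 6 + (-8 / 45) * τ ^ 7 + (2 / 315) * τ ^ 8) * u ^ 8 := by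
    rw [if_neg (by norm_num)] at c8
    linear_combination c8
  have c9 := conv 9
  simp only [Finset.sum_range_succ, Finset.sum_range_zero, hx0, hx1, hx2, hx3, hx4, hx5, hx6, hx7, hx8, hx9, Nat.reduceSub, e0, e1, e2, e3, e4, e5, e6, e7, e8] at c9
  have e9 : e 9 =
      ((-2) * τ ^ 1 + (25 / 6) * τ ^ 2 + (-35 / 12) * τ ^ 3 + (5 / 6) * τ ^ 4 + (-1 / 12) * τ ^ 5) * u ^ 1 +
      ((80 / 3) * τ ^ 1 + (-548 / 9) * τ ^ 2 + 50 * τ ^ 3 + (-170 / 9) * τ ^ 4 + (10 / 3) * τ ^ 5 + (-2 / 9) * τ ^ 6) * u ^ 3 +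
      ((-96) * τ ^ 1 + (1176 / 5) * τ ^ 2 + (-3248 / 15) * τ ^ 3 + 98 * τ ^ 4 + (-70 / 3) * τ ^ 5 + (14 / 5) * τ ^ 6 + (-2 / 15) * τ ^ 7) * u ^ 5 +
      (128 * τ ^ 1 + (-11616 / 35) * τ ^ 2 + (15008 / 45) * τ ^ 3 + (-7736 / 45) * τ ^ 4 + (448 / 9) * τ ^ 5 + (-368 / 45) * τ ^ 6 + (32 / 45) * τ ^ 7 + (-8 / 315) * τ ^ 8) * u ^ 7 +
      ((-512 / 9) * τ ^ 1 + (48704 / 315) * τ ^ 2 + (-472496 / 2835) * τ ^ 3 + (1424 / 15) * τ ^ 4 + (-4276 / 135) * τ ^ 5 + (32 / 5) * τ ^ 6 + (-104 / 135) * τ ^ 7 + (16 / 315) * τ ^ 8 + (-4 / 2835) * τ ^ 9) * u ^ 9 := by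
    rw [if_neg (by norm_num)] at c9
    linear_combination c9
  rw [e7, e8, e9]; ring

/-- the Jacobi–Trudi determinant, explicitly -/
noncomputable def Wp (τ : ℝ) : ℝ[X] :=
      C ((1 / 16) * τ ^ 2 + (-11 / 48) * τ ^ 3 + (193 / 576) * τ ^ 4 + (-1 / 4) * τ ^ 5 + (29 / 288) * τ ^ 6 + (-1 / 48) * τ ^ 7 + (1 / 576) * τ ^ 8) * X ^ 0 +
      C ((-4 / 3) * τ ^ 2 + (35 / 9) * τ ^ 3 + (-85 / 27) * τ ^ 4 + (-5 / 4) * τ ^ 5 + (131 / 36) * τ ^ 6 + (-5 / 2) * τ ^ 7 + (5 / 6) * τ ^ 8 + (-5 / 36) * τ ^ 9 + (1 / 108) * τ ^ 10) * X ^ 4 +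
      C ((32 / 3) * τ ^ 2 + (-1496 / 45) * τ ^ 3 + (848 / 27) * τ ^ 4 + (134 / 27) * τ ^ 5 + (-280 / 9) * τ ^ 6 + (1162 / 45) * τ ^ 7 + (-32 / 3) * τ ^ 8 + (22 / 9) * τ ^ 9 + (-8 / 27) * τ ^ 10 + (2 / 135) * τ ^ 11) * X ^ 6 +
      C ((-880 / 21) * τ ^ 2 + (8780 / 63) * τ ^ 3 + (-142406 / 945) * τ ^ 4 + (397 / 63) * τ ^ 5 + (47741 / 378) * τ ^ 6 + (-127) * τ ^ 7 + (39763 / 630) * τ ^ 8 + (-1157 / 63) * τ ^ 9 + (1199 / 378) * τ ^ 10 + (-19 / 63) * τ ^ 11 + (23 / 1890) * τ ^ 12) * X ^ 8 +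
      C ((5632 / 63) * τ ^ 2 + (-297344 / 945) * τ ^ 3 + (767552 / 2025) * τ ^ 4 + (-3209312 / 42525) * τ ^ 5 + (-757328 / 2835) * τ ^ 6 + (2748304 / 8505) * τ ^ 7 + (-294352 / 1575) * τ ^ 8 + (921968 / 14175) * τ ^ 9 + (-5776 / 405) * τ ^ 10 + (16432 / 8505) * τ ^ 11 + (-2096 / 14175) * τ ^ 12 + (208 / 42525) * τ ^ 13) * X ^ 10 +
      C ((-6656 / 63) * τ ^ 2 + (369664 / 945) * τ ^ 3 + (-7312288 / 14175) * τ ^ 4 + (290512 / 1701) * τ ^ 5 + (12746024 / 42525) * τ ^ 6 + (-3739028 / 8505) * τ ^ 7 + (12349948 / 42525) * τ ^ 8 + (-331628 / 2835) * τ ^ 9 + (436244 / 14175) * τ ^ 10 + (-45308 / 8505) * τ ^ 11 + (24916 / 42525) * τ ^ 12 + (-316 / 8505) * τ ^ 13 + (44 / 42525) * τ ^ 14) * X ^ 12 +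
      C ((4096 / 63) * τ ^ 2 + (-1667072 / 6615) * τ ^ 3 + (5091584 / 14175) * τ ^ 4 + (-6805376 / 42525) * τ ^ 5 + (-786368 / 4725) * τ ^ 6 + (1838368 / 6075) * τ ^ 7 + (-456704 / 2025) * τ ^ 8 + (30607744 / 297675) * τ ^ 9 + (-444032 / 14175) * τ ^ 10 + (277568 / 42525) * τ ^ 11 + (-4352 / 4725) * τ ^ 12 + (512 / 6075) * τ ^ 13 + (-64 / 14175) * τ ^ 14 + (32 / 297675) * τ ^ 15) * X ^ 14 +
      C ((-1024 / 63) * τ ^ 2 + (144896 / 2205) * τ ^ 3 + (-9952192 / 99225) * τ ^ 4 + (779264 / 14175) * τ ^ 5 + (4457312 / 127575) * τ ^ 6 + (-3512032 / 42525) * τ ^ 7 + (251476 / 3645) * τ ^ 8 + (-10449248 / 297675) * τ ^ 9 + (10819472 / 893025) * τ ^ 10 + (-41632 / 14175) * τ ^ 11 + (64072 / 127575) * τ ^ 12 + (-2528 / 42525) * τ ^ 13 + (592 / 127575) * τ ^ 14 + (-64 / 297675) * τ ^ 15 + (4 / 893025)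 * τ ^ 16) * X ^ 16

lemma G8sq (τ : ℝ) : G τ 8 * G τ 8 =
      C ((1 / 16) * τ ^ 2 + (11 / 48) * τ ^ 3 + (193 / 576) * τ ^ 4 + (1 / 4) * τ ^ 5 + (29 / 288) * τ ^ 6 + (1 / 48) * τ ^ 7 + (1 / 576) * τ ^ 8) * X ^ 0 +
      C ((-4) * τ ^ 2 + (-47 / 3) * τ ^ 3 + (-226 / 9) * τ ^ 4 + (-769 / 36) * τ ^ 5 + (-94 / 9) * τ ^ 6 + (-53 / 18) * τ ^ 7 + (-4 / 9) * τ ^ 8 + (-1 / 36) * τ ^ 9) * X ^ 2 +
      C (84 * τ ^ 2 + 349 * τ ^ 3 + (1817 / 3) * τ ^ 4 + (20669 / 36) * τ ^ 5 + (11741 / 36) * τ ^ 6 + (2053 / 18) * τ ^ 7 + (433 / 18) * τ ^ 8 + (101 / 36) * τ ^ 9 + (5 / 36) * τ ^ 10) * X ^ 4 +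
      C ((-672) * τ ^ 2 + (-43976 / 15) * τ ^ 3 + (-244156 / 45) * τ ^ 4 + (-755978 / 135) * τ ^ 5 + (-160331 / 45) * τ ^ 6 + (-13085 / 9) * τ ^ 7 + (-17174 / 45) * τ ^ 8 + (-2804 / 45) * τ ^ 9 + (-259 / 45) * τ ^ 10 + (-31 / 135) * τ ^ 11) * X ^ 6 +
      C (2640 * τ ^ 2 + (252412 / 21) * τ ^ 3 + (7404142 / 315) * τ ^ 4 + (24618437 / 945) * τ ^ 5 + (34355929 / 1890) * τ ^ 6 + (41853 / 5) * τ ^ 7 + (15503 / 6) * τ ^ 8 + (166741 / 315) * τ ^ 9 + (4833 / 70) * τ ^ 10 + (4903 / 945) * τ ^ 11 + (323 / 1890) * τ ^ 12) * X ^ 8 +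
      C ((-5632) * τ ^ 2 + (-2796032 / 105) * τ ^ 3 + (-17210656 / 315) * τ ^ 4 + (-1737680 / 27) * τ ^ 5 + (-9168200 / 189) * τ ^ 6 + (-7762588 / 315) * τ ^ 7 + (-43176 / 5) * τ ^ 8 + (-131836 / 63) * τ ^ 9 + (-21704 / 63) * τ ^ 10 + (-4964 / 135) * τ ^ 11 + (-2168 / 945) * τ ^ 12 + (-4 / 63) * τ ^ 13) * X ^ 10 +
      C (6656 * τ ^ 2 + (3418112 / 105) * τ ^ 3 + (36587296 / 525) * τ ^ 4 + (408996848 / 4725) * τ ^ 5 + (987894232 / 14175) * τ ^ 6 + (36324676 / 945) * τ ^ 7 + (211705196 / 14175) * τ ^ 8 + (2168036 / 525) * τ ^ 9 + (3819332 / 4725) * τ ^ 10 + (103436 / 945) * τ ^ 11 + (138212 / 14175) * τ ^ 12 + (2428 / 4725) * τ ^ 13 + (172 / 14175) * τ ^ 14) * X ^ 12 +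
      C ((-4096) * τ ^ 2 + (-722944 / 35) * τ ^ 3 + (-10334464 / 225) * τ ^ 4 + (-896768 / 15) * τ ^ 5 + (-103234432 / 2025) * τ ^ 6 + (-61090048 / 2025) * τ ^ 7 + (-25883408 / 2025) * τ ^ 8 + (-11158576 / 2835) * τ ^ 9 + (-595952 / 675) * τ ^ 10 + (-96368 / 675) * τ ^ 11 + (-32816 / 2025) * τ ^ 12 + (-496 / 405) * τ ^ 13 + (-112 / 2025) * τ ^ 14 + (-16 / 14175) * τ ^ 15) * X ^ 14 +
      C (1024 * τ ^ 2 + (185856 / 35) * τ ^ 3 + (134730304 / 11025) * τ ^ 4 + (3731968 / 225) * τ ^ 5 + (210926176 / 14175) * τ ^ 6 + (18959456 / 2025) * τ ^ 7 + (20189492 / 4725) * τ ^ 8 + (20419072 / 14175) * τ ^ 9 + (35849456 / 99225) * τ ^ 10 + (45376 / 675) * τ ^ 11 + (129704 / 14175) * τ ^ 12 + (1792 / 2025) * τ ^ 13 + (272 / 4725) * τ ^ 14 + (32 / 14175) * τ ^ 15 + (4 / 99225) * τ ^ 16) * X ^ 16 := by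
  apply Polynomial.funext; intro u
  simp only [eval_mul, eval_add, eval_C, eval_pow, eval_X, hx8]; ring

/-- the Schur coefficient -/
def V (τ : ℝ) : ℝ :=
      50803200 * τ ^ 2 +
      (-15603840) * τ ^ 3 +
      (-164654784) * τ ^ 4 +
      141561504 * τ ^ 5 +
      2734928 * τ ^ 6 +
      15861216 * τ ^ 7 +
      (-25255216) * τ ^ 8 +
      (-52798368) * τ ^ 9 +
      94391024 * τ ^ 10 +
      (-74989152) * τ ^ 11 +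
      38899504 * τ ^ 12 +
      (-13633536) * τ ^ 13 +
      3058048 * τ ^ 14 +
      (-397824) * τ ^ 15 +
      23296 * τ ^ 16

/-- normalisation constant -/
noncomputable def kap (τ : ℝ) : ℝ :=
  40320 * ((τ + 1) * (τ + 2) * (τ + 3) * (τ + 4) * (τ + 5) * (τ + 6) * (τ + 7) * (τ + 8))

lemma mom0 (τ : ℝ) : mom τ 0 = 1 := rfl

lemma mom2 {τ : ℝ} (hτ : 0 < τ) : mom τ 2 = 1 / (2 * ((τ + 1))) := by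
  have h : mom τ 2 = (((0 : ℕ) : ℝ) + 1) / (2 * τ + (0 : ℕ) + 2) * mom τ 0 := rfl
  rw [h, mom0]
  push_cast; field_simp; ring

lemma mom4 {τ : ℝ} (hτ : 0 < τ) : mom τ 4 = 3 / (4 * ((τ + 1) * (τ + 2))) := by
  have h : mom τ 4 = (((2 : ℕ) : ℝ) + 1) / (2 * τ + (2 : ℕ) + 2) * mom τ 2 := rfl
  rw [h, mom2 hτ]
  push_cast; field_simp; ring

lemma mom6 {τ : ℝ} (hτ : 0 < τ) : mom τ 6 = 15 / (8 * ((τ + 1) * (τ + 2) * (τ + 3))) := by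
  have h : mom τ 6 = (((4 : ℕ) : ℝ) + 1) / (2 * τ + (4 : ℕ) + 2) * mom τ 4 := rfl
  rw [h, mom4 hτ]
  push_cast; field_simp; ring

lemma mom8 {τ : ℝ} (hτ : 0 < τ) : mom τ 8 = 105 / (16 * ((τ + 1) * (τ + 2) * (τ + 3) * (τ + 4))) := by
  have h : mom τ 8 = (((6 : ℕ) : ℝ) + 1) / (2 * τ + (6 : ℕ) + 2) * mom τ 6 := rfl
  rw [h, mom6 hτ]
  push_cast; field_simp; ring

lemma mom10 {τ : ℝ} (hτ : 0 < τ) : mom τ 10 = 945 / (32 * ((τ + 1) * (τ + 2) * (τ + 3) * (τ + 4) * (τ + 5))) := by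
  have h : mom τ 10 = (((8 : ℕ) : ℝ) + 1) / (2 * τ + (8 : ℕ) + 2) * mom τ 8 := rfl
  rw [h, mom8 hτ]
  push_cast; field_simp; ring

lemma mom12 {τ : ℝ} (hτ : 0 < τ) : mom τ 12 = 10395 / (64 * ((τ + 1) * (τ + 2) * (τ + 3) * (τ + 4) * (τ + 5) * (τ + 6))) := by
  have h : mom τ 12 = (((10 : ℕ) : ℝ) + 1) / (2 * τ + (10 : ℕ) + 2) * mom τ 10 := rfl
  rw [h, mom10 hτ]
  push_cast; field_simp; ring

lemma mom14 {τ : ℝ} (hτ : 0 < τ) : mom τ 14 = 135135 / (128 * ((τ + 1) * (τ + 2) * (τ + 3) * (τ + 4) * (τ + 5) * (τ + 6) * (τ + 7))) := by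
  have h : mom τ 14 = (((12 : ℕ) : ℝ) + 1) / (2 * τ + (12 : ℕ) + 2) * mom τ 12 := rfl
  rw [h, mom12 hτ]
  push_cast; field_simp; ring

lemma mom16 {τ : ℝ} (hτ : 0 < τ) : mom τ 16 = 2027025 / (256 * ((τ + 1) * (τ + 2) * (τ + 3) * (τ + 4) * (τ + 5) * (τ + 6) * (τ + 7) * (τ + 8))) := by
  have h : mom τ 16 = (((14 : ℕ) : ℝ) + 1) / (2 * τ + (14 : ℕ) + 2) * mom τ 14 := rfl
  rw [h, mom14 hτ]
  push_cast; field_simp; ring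

lemma kap_G8 {τ : ℝ} (hτ : 0 < τ) : kap τ * L τ (G τ 8 * G τ 8) =
    (∏ j ∈ range 8, (τ * 2 + (7 - (j : ℝ)))) * ∏ j ∈ range 8, (τ + (7 - (j : ℝ))) := by
  rw [G8sq]
  simp only [(L τ).map_add, L_C_mul, L_X_pow, mom0, mom2 hτ, mom4 hτ, mom6 hτ, mom8 hτ, mom10 hτ, mom12 hτ, mom14 hτ, mom16 hτ, kap, Finset.prod_range_succ,
    Finset.prod_range_zero]
  push_cast; field_simp; ring

lemma kap_W {τ : ℝ} (hτ : 0 < τ) : kap τ * L τ (Wp τ) = V τ := by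
  unfold Wp V
  simp only [(L τ).map_add, L_C_mul, L_X_pow, mom0, mom4 hτ, mom6 hτ, mom8 hτ, mom10 hτ, mom12 hτ, mom14 hτ, mom16 hτ, kap]
  field_simp; ring

end Pool.Agent.H258Z.Jack
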