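import Pool.Agent.H258Z.Jack.Constr
import Pool.Agent.H258Z.Jack.Explicit

/-! The Schur coefficient via Jacobi–Trudi. -/

set_option autoImplicit false

namespace Pool.Agent.H258Z.Jack
open Finset

/-- the partition `(2^8)` -/
def mu (i : ℕ) : ℕ := if i < 8 then 2 else 0

/-- Jacobi–Trudi matrix -/
def JT {R : Type*} [Zero R] (h : ℕ → R) : Matrix (Fin 16) (Fin 16) R := fun i j =>
  if (j.rev : ℕ) ≤ mu i + (16 - 1 - i) then h (mu i + (16 - 1 - i) - j.rev) else 0

/-- upper triangular Toeplitz matrix -/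
def Tp (n : ℕ) (e : ℕ → ℝ) : Matrix (Fin n) (Fin n) ℝ := fun j k =>
  if j ≤ k then e (k - j) else 0

lemma det_Tp (n : ℕ) (e : ℕ → ℝ) (e0 : e 0 = 1) : (Tp n e).det = 1 := by
  rw [Matrix.det_of_isUpperTriangular]
  · simp [Tp, e0]
  · intro i j hij
    simp only [id] at hij
    simp [Tp, not_le.2 hij]

lemma Tp_mul (n : ℕ) (h e : ℕ → ℝ)
    (conv : ∀ r, ∑ k ∈ range (r + 1), h k * e (r - k) = if r = 0 then 1 else 0) (i k : Fin n) :
    ∑ j, Tp n h i j * Tp n e j k = if i = k then 1 else 0 := by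
  have h1 : ∀ j : Fin n, Tp n h i j * Tp n e j k =
      (fun j : ℕ => if j ∈ Ico (i : ℕ) (k + 1) then h (j - i) * e (k - j) else 0) j := by
    intro j
    simp only [Tp, mem_Ico, Fin.le_def, Nat.lt_succ_iff]
    by_cases a : (i : ℕ) ≤ j <;> by_cases b : (j : ℕ) ≤ k <;> simp [a, b]
  simp only [h1]
  rw [Fin.sum_univ_eq_sum_range
    (fun j : ℕ => if j ∈ Ico (i : ℕ) (k + 1) then h (j - i) * e (k - j) else 0) n,
    Finset.sum_ite_mem]
  have h2 : range n ∩ Ico (i : ℕ) (k + 1) = Ico (i : ℕ) (k + 1) := by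
    apply Finset.inter_eq_right.2
    intro x hx
    have := k.2
    simp only [mem_Ico, mem_range] at hx ⊢
    omega
  rw [h2, Finset.sum_Ico_eq_sum_range]
  by_cases hik : (i : ℕ) ≤ k
  · have h3 : (k : ℕ) + 1 - i = (k - i) + 1 := by omega
    rw [h3]
    have h4 := conv (k - i)
    have h5 : (if (k : ℕ) - i = 0 then (1 : ℝ) else 0) = if i = k then 1 else 0 := by
      congr 1
      rw [Fin.ext_iff]; apply propext; omega
    rw [← h5, ← h4]
    refine Finset.sum_congr rfl fun x _ => ?_
    congr 2 <;> omega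
  · have h3 : (k : ℕ) + 1 - i = 0 := by omega
    rw [h3, if_neg (by rintro rfl; exact hik le_rfl)]; simp

/-- row permutation -/
def sg : Equiv.Perm (Fin 16) :=
  Equiv.swap 0 2 * Equiv.swap 2 4 * Equiv.swap 4 6 * Equiv.swap 1 3 * Equiv.swap 3 5 *
    Equiv.swap 5 7

lemma sign_sg : Equiv.Perm.sign sg = 1 := by
  unfold sg
  simp only [map_mul]
  rw [Equiv.Perm.sign_swap (by decide), Equiv.Perm.sign_swap (by decide),
    Equiv.Perm.sign_swap (by decide), Equiv.Perm.sign_swap (by decide),
    Equiv.Perm.sign_swap (by decide), Equiv.Perm.sign_swap (by decide)]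
  decide

lemma sg_row : ∀ i : Fin 16, i ≠ 6 → i ≠ 7 → mu (sg i) + (16 - 1 - sg i) = 15 - i := by decide

lemma sg6 : sg 6 = 0 := by decide
lemma sg7 : sg 7 = 1 := by decide

lemma det_JT (h e : ℕ → ℝ) (h0 : h 0 = 1)
    (conv : ∀ r, ∑ k ∈ range (r + 1), h k * e (r - k) = if r = 0 then 1 else 0) :
    (JT h).det = e 8 ^ 2 - e 9 * e 7 := by
  have e0 : e 0 = 1 := by simpa [h0] using conv 0
  set N := (JT h).submatrix sg id * Tp 16 e with hN
  have h1 : (JT h).det = N.det := by
    rw [hN, Matrix.det_mul, det_Tp _ _ e0, Matrix.det_permute, sign_sg]; simp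
  have hrow : ∀ i k : Fin 16, i ≠ 6 → i ≠ 7 → N i k = if i = k then 1 else 0 := by
    intro i k h6 h7
    rw [← Tp_mul 16 h e conv, hN, Matrix.mul_apply]
    refine Finset.sum_congr rfl fun j _ => ?_
    congr 1
    simp only [Matrix.submatrix_apply, id, JT, Tp, sg_row i h6 h7, Fin.val_rev, Fin.le_def]
    have := i.2
    have := j.2
    by_cases hij : (i : ℕ) ≤ j
    · rw [if_pos (by omega), if_pos hij]; congr 1; omega
    · rw [if_neg (by omega), if_neg hij]
  let A : Matrix (Fin 16) (Fin 2) ℝ := fun i a => if (i : ℕ) = 6 + a then 1 else 0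
  let B : Matrix (Fin 2) (Fin 16) ℝ := fun a k =>
    N ⟨6 + a, by omega⟩ k - (if 6 + (a : ℕ) = k then 1 else 0)
  have h2 : N = 1 + A * B := by
    ext i k
    rw [Matrix.add_apply, Matrix.mul_apply, Fin.sum_univ_two, Matrix.one_apply]
    by_cases h6 : i = 6
    · subst h6
      simp only [A, B, Fin.ext_iff]
      norm_num
      rfl
    by_cases h7 : i = 7
    · subst h7
      simp only [A, B, Fin.ext_iff]
      norm_num
      rfl
    rw [hrow i k h6 h7]
    have a6 : (i : ℕ) ≠ 6 := fun h => h6 (Fin.ext h)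
    have a7 : (i : ℕ) ≠ 7 := fun h => h7 (Fin.ext h)
    simp [A, a6, a7]
  have hBA : ∀ a b : Fin 2, (1 + B * A : Matrix (Fin 2) (Fin 2) ℝ) a b = N ⟨6 + a, by omega⟩ ⟨6 + b, by omega⟩ := by
    intro a b
    rw [Matrix.add_apply, Matrix.mul_apply, Finset.sum_eq_single ⟨6 + b, by omega⟩,
      Matrix.one_apply]
    · simp [A, B, Fin.ext_iff]
    · intro k _ hk
      have : (k : ℕ) ≠ 6 + b := fun h => hk (Fin.ext h)
      simp [A, this]
    · simp
  have c7 := conv 7
  have c8 := conv 8
  have c9 := conv 9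
  simp only [Finset.sum_range_succ, Finset.sum_range_zero, Nat.reduceSub, h0] at c7 c8 c9
  norm_num at c7 c8 c9
  have n66 : N 6 6 = -(e 8 + h 1 * e 7) := by
    rw [hN, Matrix.mul_apply]
    simp [Fin.sum_univ_succ, sg6, JT, Tp, mu]
    linarith
  have n67 : N 6 7 = -(e 9 + h 1 * e 8) := by
    rw [hN, Matrix.mul_apply]
    simp [Fin.sum_univ_succ, sg6, JT, Tp, mu]
    linarith
  have n76 : N 7 6 = -e 7 := by
    rw [hN, Matrix.mul_apply]
    simp [Fin.sum_univ_succ, sg7, JT, Tp, mu]
    linarith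
  have n77 : N 7 7 = -e 8 := by
    rw [hN, Matrix.mul_apply]
    simp [Fin.sum_univ_succ, sg7, JT, Tp, mu]
    linarith
  rw [h1, h2, Matrix.det_one_add_mul_comm, Matrix.det_fin_two, hBA, hBA, hBA, hBA]
  change N 6 6 * N 7 7 - N 6 7 * N 7 6 = _
  rw [n66, n67, n76, n77]; ring

lemma det_JT_G (τ : ℝ) : (JT (G τ)).det = Wp τ := by
  apply Polynomial.funext
  intro u
  have h1 : Polynomial.eval u (JT (G τ)).det = (JT (fun k => Polynomial.eval u (G τ k))).det := by
    have := RingHom.map_det (Polynomial.evalRingHom u) (JT (G τ))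
    simp only [Polynomial.coe_evalRingHom] at this
    rw [this]
    congr 1
    ext i j
    simp only [RingHom.mapMatrix_apply, Matrix.map_apply, JT, Polynomial.coe_evalRingHom]
    split_ifs <;> simp
  let φ : PowerSeries ℝ := PowerSeries.mk (fun k => Polynomial.eval u (G τ k))
  have hφ : φ * φ⁻¹ = 1 := PowerSeries.mul_inv_cancel φ (by simp [φ, G_zero])
  have conv : ∀ r, ∑ k ∈ range (r + 1), Polynomial.eval u (G τ k) *
      (fun k => PowerSeries.coeff k φ⁻¹) (r - k) = if r = 0 then 1 else 0 := by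
    intro r
    have := congrArg (PowerSeries.coeff r) hφ
    rw [PowerSeries.coeff_mul, PowerSeries.coeff_one,
      Finset.Nat.sum_antidiagonal_eq_sum_range_succ
        (fun a b => PowerSeries.coeff a φ * PowerSeries.coeff b φ⁻¹)] at this
    simpa [φ] using this
  rw [h1, det_JT _ (fun k => PowerSeries.coeff k φ⁻¹) (hx0 τ u) conv,
    ex τ u (fun k => PowerSeries.coeff k φ⁻¹) conv]
  simp only [Wp, Polynomial.eval_add, Polynomial.eval_mul, Polynomial.eval_C, Polynomial.eval_pow,
    Polynomial.eval_X]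

lemma vandermonde_eq (n : ℕ) : (∏ i : Fin n, ∏ j : Fin n,
      (if i < j then MvPolynomial.X i - MvPolynomial.X j else (1 : MvPolynomial (Fin n) ℝ))) =
    ∑ σ : Equiv.Perm (Fin n), MvPolynomial.monomial
      (Finsupp.equivFunOnFinite.symm fun i => ((σ i).rev : ℕ)) ((Equiv.Perm.sign σ : ℤ) : ℝ) := by
  have h := Matrix.det_projVandermonde (fun _ : Fin n => (1 : MvPolynomial (Fin n) ℝ))
    (fun i => MvPolynomial.X i)
  have h1 : (∏ i : Fin n, ∏ j : Fin n,
      (if i < j then MvPolynomial.X i - MvPolynomial.X j else (1 : MvPolynomial (Fin n) ℝ))) =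
      ∏ i : Fin n, ∏ j ∈ Ioi i, (1 * MvPolynomial.X i - 1 * MvPolynomial.X j) := by
    refine Finset.prod_congr rfl fun i _ => ?_
    rw [← Finset.prod_filter]
    refine Finset.prod_congr (by ext; simp) fun j _ => by ring
  rw [h1, ← h, ← Matrix.det_transpose, Matrix.det_apply']
  refine Finset.sum_congr rfl fun σ _ => ?_
  rw [MvPolynomial.monomial_eq, Finsupp.prod_fintype _ _ (by simp)]
  simp [Matrix.projVandermonde_apply]

lemma schur_coeff {τ : ℝ} (κ : ℝ) :
    MvPolynomial.coeff
      (Finsupp.equivFunOnFinite.symm (fun i : Fin 16 => mu (i : ℕ) + (16 - 1 - (i : ℕ))))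
      (Jk 16 τ κ * ∏ i : Fin 16, ∏ j : Fin 16,
        (if i < j then MvPolynomial.X i - MvPolynomial.X j
          else (1 : MvPolynomial (Fin 16) ℝ))) = κ * L τ (Wp τ) := by
  rw [vandermonde_eq, Finset.mul_sum, MvPolynomial.coeff_sum, ← det_JT_G, ← Matrix.det_transpose,
    Matrix.det_apply', map_sum, Finset.mul_sum]
  refine Finset.sum_congr rfl fun σ _ => ?_
  rw [MvPolynomial.coeff_mul_monomial']
  have hC : (((Equiv.Perm.sign σ : ℤ) : Polynomial ℝ)) =
      Polynomial.C ((Equiv.Perm.sign σ : ℤ) : ℝ) := by simp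
  rw [hC, L_C_mul]
  split_ifs with hle
  · have hle' : ∀ i : Fin 16, ((σ i).rev : ℕ) ≤ mu i + (16 - 1 - i) := fun i => by
      simpa using hle i
    unfold Jk
    rw [coeff_mk, if_pos]
    · have : P τ (Finsupp.equivFunOnFinite.symm (fun i : Fin 16 => mu (i : ℕ) + (16 - 1 - (i : ℕ)))
          - Finsupp.equivFunOnFinite.symm fun i => ((σ i).rev : ℕ)) =
          ∏ i, (JT (G τ)).transpose (σ i) i := by
        unfold P
        refine Finset.prod_congr rfl fun i _ => ?_
        rw [Matrix.transpose_apply, JT, if_pos (hle' i)]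
        simp
      rw [this]; ring
    · simp only [Finsupp.coe_tsub, Pi.sub_apply, Finsupp.equivFunOnFinite_symm_apply_apply]
      rw [Finset.sum_tsub_distrib _ (fun i _ => hle' i),
        Equiv.sum_comp σ (fun i : Fin 16 => (i.rev : ℕ))]
      decide
  · have : ∃ i : Fin 16, ¬ ((σ i).rev : ℕ) ≤ mu i + (16 - 1 - i) := by
      by_contra hc
      push Not at hc
      exact hle (fun i => by simpa using hc i)
    obtain ⟨i, hi⟩ := this
    rw [Finset.prod_eq_zero (mem_univ i) (by rw [Matrix.transpose_apply, JT, if_neg hi])]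
    simp

/-- Laguerre's inequality -/
lemma laguerre (s : Multiset ℝ) (x : ℝ) :
    Polynomial.eval x (s.map (fun r => Polynomial.X - Polynomial.C r)).prod *
      Polynomial.eval x (Polynomial.derivative (Polynomial.derivative
        (s.map (fun r => Polynomial.X - Polynomial.C r)).prod)) ≤
    Polynomial.eval x (Polynomial.derivative
        (s.map (fun r => Polynomial.X - Polynomial.C r)).prod) ^ 2 := by
  induction s using Multiset.induction_on with
  | empty => simp
  | cons r s ih =>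
    rw [Multiset.map_cons, Multiset.prod_cons]
    set q := (s.map (fun r => Polynomial.X - Polynomial.C r)).prod
    simp only [Polynomial.derivative_mul, Polynomial.derivative_add, Polynomial.derivative_sub,
      Polynomial.derivative_X, Polynomial.derivative_C, sub_zero, one_mul,
      Polynomial.eval_add, Polynomial.eval_mul, Polynomial.eval_sub, Polynomial.eval_X,
      Polynomial.eval_C]
    nlinarith [mul_le_mul_of_nonneg_left ih (sq_nonneg (x - r)), sq_nonneg (Polynomial.eval x q)]

lemma laguerre' (p : Polynomial ℝ)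
    (hp : ∀ z : ℂ, Polynomial.aeval z p = 0 → z.im = 0) (x : ℝ) :
    Polynomial.eval x p * Polynomial.eval x (Polynomial.derivative (Polynomial.derivative p)) ≤
      Polynomial.eval x (Polynomial.derivative p) ^ 2 := by
  have hs : p.Splits := by
    apply Polynomial.Splits.of_splits_map (algebraMap ℝ ℂ) (IsAlgClosed.splits _)
    intro z hz
    have h1 := (Polynomial.mem_roots'.1 hz).2
    rw [Polynomial.IsRoot.def, Polynomial.eval_map_algebraMap] at h1
    exact ⟨z.re, by apply Complex.ext <;> simp [hp z h1]⟩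
  have h := hs.eq_prod_roots
  have hl := laguerre p.roots x
  rw [h]
  simp only [Polynomial.derivative_mul, Polynomial.derivative_C, zero_mul, zero_add,
    Polynomial.eval_mul, Polynomial.eval_C]
  nlinarith [mul_le_mul_of_nonneg_left hl (sq_nonneg p.leadingCoeff)]

end Pool.Agent.H258Z.Jack
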