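import Pool.Agent.H258Z.Jack.Vals

set_option autoImplicit false

namespace Pool.Agent.H258Z.Jack

/-- the partition `(8,8)` -/
def lam (i : ℕ) : ℕ := if i < 2 then 8 else 0

lemma noreal (a : ℕ → ℕ) (h : ∀ τ : ℝ, 0 < τ → V τ = ∑ j ∈ Finset.range 16,
      (a j : ℝ) * ((descPochhammer ℝ 16).eval (τ + (j : ℝ)) / ((Nat.factorial 16 : ℕ) : ℝ)))
    (hr : (∃ j < 16, a j ≠ 0) →
        ∀ z : ℂ, ∑ j ∈ Finset.range 16, (a j : ℂ) * z ^ j = 0 → z.im = 0) : False := by
  obtain ⟨a0, a1, a2, a3, a4, a5, a6, a7, a8, a9, a10, a11, a12, a13, a14, a15⟩ := a_vals a h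
  have hr' := hr ⟨1, by norm_num, by
    intro h0; rw [h0] at a1; norm_num at a1⟩
  have hl := laguerre'
    (∑ j ∈ Finset.range 16, Polynomial.C (a j : ℝ) * Polynomial.X ^ j) (by
      intro z hz
      apply hr' z
      simpa [map_sum] using hz) (-11)
  simp only [Polynomial.derivative_sum, Polynomial.derivative_C_mul, Polynomial.derivative_X_pow,
    Polynomial.eval_finsetSum, Polynomial.eval_mul, Polynomial.eval_C, Polynomial.eval_pow,
    Polynomial.eval_X] at hl
  simp only [Finset.sum_range_succ, Finset.sum_range_zero, a0, a1, a2, a3, a4, a5, a6, a7, a8, a9, a10, a11, a12, a13, a14, a15] at hl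
  norm_num at hl

lemma supp {n : ℕ} {τ : ℝ} (hτ : 0 < τ) (κ : ℝ) :
    ∀ m ∈ (Jk (n := n) 16 τ κ).support, ∑ i, m i = 16 ∧
    ∀ S : Finset (Fin n), ∑ i ∈ S, m i ≤ ∑ i ∈ Finset.range S.card, lam i := by
  intro m hm
  obtain ⟨h1, h2⟩ := Jk_support (n := n) hτ 16 8 (by norm_num) κ m hm
  refine ⟨h1, fun S => ?_⟩
  rcases hS : S.card with _ | _ | k
  · rw [Finset.card_eq_zero.1 hS]; simp
  · obtain ⟨i, rfl⟩ := Finset.card_eq_one.1 hS
    simpa [lam] using h2 i
  · have h3 : ∑ i ∈ S, m i ≤ ∑ i, m i := Finset.sum_le_sum_of_subset (Finset.subset_univ _)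
    have h4 : ∑ i ∈ Finset.range 2, lam i ≤ ∑ i ∈ Finset.range (k + 1 + 1), lam i :=
      Finset.sum_le_sum_of_subset (Finset.range_subset_range.2 (by omega))
    have h5 : ∑ i ∈ Finset.range 2, lam i = 16 := by decide
    omega

lemma lead {τ : ℝ} (hτ : 0 < τ) :
    MvPolynomial.coeff (Finsupp.equivFunOnFinite.symm (fun i : Fin 16 => lam (i : ℕ)))
      (Jk 16 τ (kap τ)) =
        ∏ i ∈ Finset.range 16, ∏ j ∈ Finset.range (lam i),
          (τ * ((((Finset.range 16).filter (fun k => j < lam k)).card : ℝ) - (i : ℝ))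
            + ((lam i : ℝ) - (j : ℝ) - 1)) := by
  unfold Jk
  rw [coeff_mk, if_pos (by
    simp only [Finsupp.equivFunOnFinite_symm_apply_apply]; decide)]
  have hP : P τ (Finsupp.equivFunOnFinite.symm (fun i : Fin 16 => lam (i : ℕ))) =
      G τ 8 * G τ 8 := by
    simp [P, Fin.prod_univ_succ, lam, G_zero]
  rw [hP, kap_G8 hτ]
  have hc : ∀ j ∈ Finset.range 8,
      ((Finset.range 16).filter (fun k => j < lam k)).card = 2 := by decide
  have hz : ∀ i, 2 ≤ i → lam i = 0 := fun i hi => by simp only [lam]; rw [if_neg (by omega)]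
  rw [← Finset.prod_subset (s₁ := Finset.range 2) (s₂ := Finset.range 16) (by decide) (by
    intro x _ hx
    rw [hz x (by simp only [Finset.mem_range] at hx; omega)]; simp),
    Finset.prod_range_succ _ 1, Finset.prod_range_one]
  have l0 : lam 0 = 8 := rfl
  have l1 : lam 1 = 8 := rfl
  rw [l0, l1]
  congr 1
  · refine Finset.prod_congr rfl fun j hj => ?_
    rw [hc j hj]; push_cast; ring
  · refine Finset.prod_congr rfl fun j hj => ?_
    rw [hc j hj]; push_cast; ring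

lemma exists_q {n : ℕ} (d : ℕ) {τ : ℝ} (hτ : 0 < τ) (κ : ℝ) :
    ∃ q : Fin n → Fin n → MvPolynomial (Fin n) ℝ, ∃ e : ℝ,
      (∀ i j : Fin n, i < j →
        (MvPolynomial.X i - MvPolynomial.X j) * q i j =
          MvPolynomial.X i ^ 2 * MvPolynomial.pderiv i (Jk d τ κ)
            - MvPolynomial.X j ^ 2 * MvPolynomial.pderiv j (Jk d τ κ)) ∧
      ∑ i : Fin n, MvPolynomial.X i ^ 2 * MvPolynomial.pderiv i (MvPolynomial.pderiv i (Jk d τ κ))
        + MvPolynomial.C (2 * τ) * ∑ i : Fin n, ∑ j : Fin n, (if i < j then q i j else 0)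
        = MvPolynomial.C e * Jk d τ κ :=
  ⟨fun i j => qk d τ κ i j, _, fun _ _ hij => div_diff hτ _ _ hij.ne, eigen hτ _ _⟩

end Pool.Agent.H258Z.Jack
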