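import Mathlib

/-! Gegenbauer polynomials and their moment functional (purely algebraic). -/

set_option autoImplicit false

namespace Pool.Agent.H258Z.Jack
open Polynomial

/-- Gegenbauer polynomials `C_r^{(τ)}`. -/
noncomputable def G (τ : ℝ) : ℕ → ℝ[X]
  | 0 => 1
  | r + 1 => C (1 / ((r : ℝ) + 1)) *
      (C ((r : ℝ) + 2 * τ) * X * G τ r - (1 - X ^ 2) * derivative (G τ r))

lemma G_zero (τ : ℝ) : G τ 0 = 1 := rfl

lemma R2 (τ : ℝ) (r : ℕ) : (1 - X ^ 2) * derivative (G τ r) =
    C ((r : ℝ) + 2 * τ) * X * G τ r - C ((r : ℝ) + 1) * G τ (r + 1) := by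
  have h : C ((r : ℝ) + 1) * C (1 / ((r : ℝ) + 1)) = 1 := by
    rw [← C_mul, mul_one_div_cancel (by positivity), C_1]
  rw [G]
  linear_combination (C ((r : ℝ) + 2 * τ) * X * G τ r - (1 - X ^ 2) * derivative (G τ r)) * h

/-- The Sturm–Liouville operator. -/
noncomputable def T (τ : ℝ) (f : ℝ[X]) : ℝ[X] :=
  (1 - X ^ 2) * derivative (derivative f) - C (2 * τ + 1) * X * derivative f

lemma C_ne (r : ℕ) : (C ((r : ℝ) + 1) : ℝ[X]) ≠ 0 := by
  rw [Ne, C_eq_zero]; positivity

lemma R1_of_ode (τ : ℝ) (r : ℕ) (h : T τ (G τ r) = - C ((r : ℝ) * (r + 2 * τ)) * G τ r) :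
    derivative (G τ (r + 1)) = X * derivative (G τ r) + C ((r : ℝ) + 2 * τ) * G τ r := by
  have h2 := congrArg derivative (R2 τ r)
  simp only [derivative_mul, derivative_sub, derivative_one, derivative_X_pow, derivative_C,
    derivative_X, zero_mul, zero_add, mul_one] at h2
  apply mul_left_cancel₀ (C_ne r)
  unfold T at h
  simp only [map_add, map_mul, map_one, map_ofNat, Nat.cast_ofNat, map_natCast] at h h2 ⊢
  norm_num at h2
  linear_combination h2 - h

lemma ode (τ : ℝ) (r : ℕ) : T τ (G τ r) = - C ((r : ℝ) * (r + 2 * τ)) * G τ r := by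
  induction r with
  | zero => simp [T, G]
  | succ r ih =>
    have h1 := R1_of_ode τ r ih
    have h2 := R2 τ r
    have h3 := congrArg derivative h1
    simp only [derivative_mul, derivative_add, derivative_C, derivative_X, zero_mul, zero_add,
      one_mul] at h3
    unfold T at ih ⊢
    rw [h3, h1]
    simp only [map_add, map_mul, map_one, map_ofNat, map_natCast, Nat.cast_add, Nat.cast_one]
      at ih h2 ⊢
    linear_combination X * ih + ((r : ℝ[X]) + 1 + 2 * C τ) * h2

lemma R1 (τ : ℝ) (r : ℕ) :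
    derivative (G τ (r + 1)) = X * derivative (G τ r) + C ((r : ℝ) + 2 * τ) * G τ r :=
  R1_of_ode τ r (ode τ r)

lemma three_term (τ : ℝ) (r : ℕ) : C ((r : ℝ) + 2) * G τ (r + 2) =
    C (2 * ((r : ℝ) + 1 + τ)) * X * G τ (r + 1) - C ((r : ℝ) + 2 * τ) * G τ r := by
  have h1 := R1 τ r
  have h2 := R2 τ r
  have h3 := R2 τ (r + 1)
  rw [h1] at h3
  simp only [map_add, map_mul, map_one, map_ofNat, map_natCast, Nat.cast_add, Nat.cast_one]
    at h2 h3 ⊢
  linear_combination h3 - X * h2

lemma G_one (τ : ℝ) : G τ 1 = C (2 * τ) * X := by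
  simp [G]

lemma eval_three (τ u : ℝ) (r : ℕ) : eval u (G τ (r + 2)) =
    (2 * ((r : ℝ) + 1 + τ) * u * eval u (G τ (r + 1)) - ((r : ℝ) + 2 * τ) * eval u (G τ r)) /
      ((r : ℝ) + 2) := by
  have := congrArg (eval u) (three_term τ r)
  simp only [eval_mul, eval_sub, eval_C, eval_X] at this
  rw [eq_div_iff (by positivity)]
  linarith

lemma natDegree_G (τ : ℝ) (r : ℕ) : (G τ r).natDegree ≤ r := by
  induction r with
  | zero => simp [G]
  | succ r ih =>
    rw [G]
    refine (natDegree_C_mul_le _ _).trans ((natDegree_sub_le _ _).trans (max_le ?_ ?_))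
    · refine natDegree_mul_le.trans ?_
      have : (C ((r : ℝ) + 2 * τ) * X).natDegree ≤ 1 :=
        (natDegree_C_mul_le _ _).trans natDegree_X_le
      omega
    · rcases Nat.eq_zero_or_pos r with rfl | hr
      · simp [G]
      refine natDegree_mul_le.trans ?_
      have h1 : (1 - X ^ 2 : ℝ[X]).natDegree ≤ 2 := by compute_degree
      have h2 := natDegree_derivative_le (G τ r)
      omega

/-- the key two-variable identity -/
noncomputable def Q (τ : ℝ) (a b : ℕ) : ℝ[X] :=
  C (2 * τ * ((a : ℝ) + b) + a * b) * G τ a * G τ b -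
    (1 - X ^ 2) * derivative (G τ a) * derivative (G τ b)

lemma Q_comm (τ : ℝ) (a b : ℕ) : Q τ a b = Q τ b a := by
  unfold Q
  simp only [map_add, map_mul, map_ofNat, map_natCast]
  ring

lemma Q_step (τ : ℝ) (a b : ℕ) : Q τ a (b + 1) - C (2 * τ * a) * (G τ a * G τ (b + 1)) =
    Q τ (a + 1) b - C (2 * τ * b) * (G τ (a + 1) * G τ b) := by
  have h1 := R2 τ a
  have h2 := R2 τ b
  unfold Q
  rw [R1 τ a, R1 τ b]
  simp only [map_add, map_mul, map_one, map_ofNat, map_natCast, Nat.cast_add, Nat.cast_one]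
    at h1 h2 ⊢
  linear_combination (-((b : ℝ[X]) + 2 * C τ) * G τ b) * h1 + (((a : ℝ[X]) + 2 * C τ) * G τ a) * h2

lemma Q_zero (τ : ℝ) (a : ℕ) : Q τ a 0 - C (2 * τ * a) * (G τ a * G τ 0) = 0 := by
  unfold Q
  simp [G_zero]

/-- moments -/
noncomputable def mom (τ : ℝ) : ℕ → ℝ
  | 0 => 1
  | 1 => 0
  | k + 2 => ((k : ℝ) + 1) / (2 * τ + k + 2) * mom τ k

/-- the moment functional -/
noncomputable def L (τ : ℝ) : ℝ[X] →ₗ[ℝ] ℝ :=
  Polynomial.lsum (fun k => LinearMap.toSpanSingleton ℝ ℝ (mom τ k))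

lemma L_monomial (τ : ℝ) (k : ℕ) (a : ℝ) : L τ (monomial k a) = a * mom τ k := by
  simp [L, Polynomial.lsum_apply, Polynomial.sum_monomial_index]

lemma L_C_mul (τ a : ℝ) (f : ℝ[X]) : L τ (C a * f) = a * L τ f := by
  rw [← smul_eq_C_mul, map_smul, smul_eq_mul]

lemma L_X_pow (τ : ℝ) (k : ℕ) : L τ (X ^ k) = mom τ k := by
  rw [← monomial_one_right_eq_X_pow, L_monomial, one_mul]

lemma LS {τ : ℝ} (hτ : 0 < τ) (f : ℝ[X]) :
    L τ ((1 - X ^ 2) * derivative f - C (2 * τ + 1) * X * f) = 0 := by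
  induction f using Polynomial.induction_on' with
  | add p q hp hq =>
    have : (1 - X ^ 2) * derivative (p + q) - C (2 * τ + 1) * X * (p + q) =
        ((1 - X ^ 2) * derivative p - C (2 * τ + 1) * X * p) +
        ((1 - X ^ 2) * derivative q - C (2 * τ + 1) * X * q) := by
      rw [derivative_add]; ring
    rw [this, map_add, hp, hq, add_zero]
  | monomial n a =>
    rcases n with _ | k
    · have : (1 - X ^ 2) * derivative (monomial 0 a) - C (2 * τ + 1) * X * monomial 0 a =
          C (-((2 * τ + 1) * a)) * X ^ 1 := by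
        simp only [monomial_zero_left, derivative_C, map_neg, map_mul]; ring
      rw [this, L_C_mul, L_X_pow]; simp [mom]
    · have : (1 - X ^ 2) * derivative (monomial (k + 1) a) -
          C (2 * τ + 1) * X * monomial (k + 1) a =
          C (a * (k + 1)) * X ^ k - C (a * (2 * τ + k + 2)) * X ^ (k + 2) := by
        rw [← C_mul_X_pow_eq_monomial]
        simp only [derivative_mul, derivative_C, derivative_X_pow, map_add, map_mul, map_one,
          map_ofNat, map_natCast, Nat.cast_add, Nat.cast_one, Nat.add_sub_cancel]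
        ring
      rw [this, map_sub, L_C_mul, L_C_mul, L_X_pow, L_X_pow, mom]
      have : 2 * τ + k + 2 ≠ 0 := by positivity
      field_simp
      ring

lemma L_T {τ : ℝ} (hτ : 0 < τ) (f : ℝ[X]) : L τ (T τ f) = 0 := LS hτ _

lemma L_T_symm {τ : ℝ} (hτ : 0 < τ) (f g : ℝ[X]) : L τ (T τ f * g) = L τ (f * T τ g) := by
  have h := LS hτ (derivative f * g - f * derivative g)
  have : (1 - X ^ 2) * derivative (derivative f * g - f * derivative g) -
      C (2 * τ + 1) * X * (derivative f * g - f * derivative g) = T τ f * g - f * T τ g := by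
    simp only [T, derivative_sub, derivative_mul]; ring
  rw [this, map_sub] at h
  linarith

lemma T_X_pow (τ : ℝ) (k : ℕ) : T τ (X ^ k) =
    C ((k : ℝ) * (k - 1)) * X ^ (k - 2) - C ((k : ℝ) * (k + 2 * τ)) * X ^ k := by
  rcases k with _ | _ | k
  · simp [T]
  · simp [T, map_add, map_mul]; ring
  · simp only [T, derivative_mul, derivative_C, derivative_X_pow, map_add, map_mul, map_one,
      map_sub, map_ofNat, map_natCast, Nat.cast_add, Nat.cast_one, Nat.add_sub_cancel,
      derivative_natCast, derivative_one]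
    have : k + 1 + 1 - 2 = k := by omega
    rw [this]
    ring

lemma orth_X_pow {τ : ℝ} (hτ : 0 < τ) (r k : ℕ) (hk : k < r) : L τ (G τ r * X ^ k) = 0 := by
  induction k using Nat.strong_induction_on with
  | _ k ih =>
    have h := L_T_symm hτ (G τ r) (X ^ k)
    rw [ode, T_X_pow] at h
    have e1 : -C ((r : ℝ) * (r + 2 * τ)) * G τ r * X ^ k =
        C (-((r : ℝ) * (r + 2 * τ))) * (G τ r * X ^ k) := by rw [map_neg]; ring
    have e2 : G τ r * (C ((k : ℝ) * (k - 1)) * X ^ (k - 2) - C ((k : ℝ) * (k + 2 * τ)) * X ^ k) =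
        C ((k : ℝ) * (k - 1)) * (G τ r * X ^ (k - 2)) -
          C ((k : ℝ) * (k + 2 * τ)) * (G τ r * X ^ k) := by ring
    rw [e1, e2, map_sub, L_C_mul, L_C_mul, L_C_mul] at h
    have h0 : ((k : ℝ) * (k - 1)) * L τ (G τ r * X ^ (k - 2)) = 0 := by
      rcases k with _ | _ | k
      · simp
      · simp
      · rw [ih _ (by omega) (by omega), mul_zero]
    have hkr : (k : ℝ) < r := by exact_mod_cast hk
    have hk0 : (0 : ℝ) ≤ k := by positivity
    have hne : (r : ℝ) * (r + 2 * τ) - k * (k + 2 * τ) ≠ 0 := by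
      have : 0 < ((r : ℝ) - k) * (r + k + 2 * τ) := mul_pos (by linarith) (by linarith)
      intro h'; nlinarith
    apply mul_left_cancel₀ hne
    linarith

lemma orth {τ : ℝ} (hτ : 0 < τ) (r : ℕ) (g : ℝ[X]) (hg : g.natDegree < r) :
    L τ (G τ r * g) = 0 := by
  rw [g.as_sum_range' r hg, Finset.mul_sum, map_sum]
  refine Finset.sum_eq_zero fun k hk => ?_
  rw [← C_mul_X_pow_eq_monomial, mul_left_comm, L_C_mul,
    orth_X_pow hτ r k (Finset.mem_range.1 hk), mul_zero]

end Pool.Agent.H258Z.Jack
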