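import Pool.Agent.H258Z.Jack.Det

set_option autoImplicit false

namespace Pool.Agent.H258Z.Jack

/-- the coefficients `a_j` are forced -/
lemma a_vals (a : ℕ → ℕ) (h : ∀ τ : ℝ, 0 < τ → V τ = ∑ j ∈ Finset.range 16,
      (a j : ℝ) * ((descPochhammer ℝ 16).eval (τ + (j : ℝ)) / ((Nat.factorial 16 : ℕ) : ℝ))) :
    (a 0 : ℝ) = 0 ∧ (a 1 : ℝ) = 597793996800 ∧ (a 2 : ℝ) = 73236035174400 ∧ (a 3 : ℝ) = 2004440894668800 ∧ (a 4 : ℝ) = 19314619527168000 ∧ (a 5 : ℝ) = 79659352571904000 ∧ (a 6 : ℝ) = 154554571254988800 ∧ (a 7 : ℝ) = 146689299490406400 ∧ (a 8 : ℝ) = 68260823569612800 ∧ (a 9 : ℝ) = 15222991343616000 ∧ (a 10 : ℝ) = 1568059637760000 ∧ (a 11 : ℝ) = 68516388864000 ∧ (a 12 : ℝ) = 804722688000 ∧ (a 13 : ℝ) = 0 ∧ (a 14 : ℝ) = 0 ∧ (a 15 : ℝ) = 0 := by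
  have h' : ∀ t : ℕ, 0 < t → V t = ∑ j ∈ Finset.range 16, (a j : ℝ) *
      (((t + j).descFactorial 16 : ℕ) / 20922789888000) := by
    intro t ht
    rw [h t (by exact_mod_cast ht)]
    refine Finset.sum_congr rfl fun j _ => ?_
    rw [← Nat.cast_add, descPochhammer_eval_eq_descFactorial]
    norm_num [Nat.factorial]
  have h1 := h' 1 (by norm_num)
  simp only [Finset.sum_range_succ, Finset.sum_range_zero, V] at h1
  norm_num [Nat.descFactorial] at h1
  have a15 : (a 15 : ℝ) = 0 := by linarith
  have h2 := h' 2 (by norm_num)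
  simp only [Finset.sum_range_succ, Finset.sum_range_zero, V] at h2
  norm_num [Nat.descFactorial] at h2
  have a14 : (a 14 : ℝ) = 0 := by linarith
  have h3 := h' 3 (by norm_num)
  simp only [Finset.sum_range_succ, Finset.sum_range_zero, V] at h3
  norm_num [Nat.descFactorial] at h3
  have a13 : (a 13 : ℝ) = 0 := by linarith
  have h4 := h' 4 (by norm_num)
  simp only [Finset.sum_range_succ, Finset.sum_range_zero, V] at h4
  norm_num [Nat.descFactorial] at h4
  have a12 : (a 12 : ℝ) = 804722688000 := by linarith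
  have h5 := h' 5 (by norm_num)
  simp only [Finset.sum_range_succ, Finset.sum_range_zero, V] at h5
  norm_num [Nat.descFactorial] at h5
  have a11 : (a 11 : ℝ) = 68516388864000 := by linarith
  have h6 := h' 6 (by norm_num)
  simp only [Finset.sum_range_succ, Finset.sum_range_zero, V] at h6
  norm_num [Nat.descFactorial] at h6
  have a10 : (a 10 : ℝ) = 1568059637760000 := by linarith
  have h7 := h' 7 (by norm_num)
  simp only [Finset.sum_range_succ, Finset.sum_range_zero, V] at h7
  norm_num [Nat.descFactorial] at h7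
  have a9 : (a 9 : ℝ) = 15222991343616000 := by linarith
  have h8 := h' 8 (by norm_num)
  simp only [Finset.sum_range_succ, Finset.sum_range_zero, V] at h8
  norm_num [Nat.descFactorial] at h8
  have a8 : (a 8 : ℝ) = 68260823569612800 := by linarith
  have h9 := h' 9 (by norm_num)
  simp only [Finset.sum_range_succ, Finset.sum_range_zero, V] at h9
  norm_num [Nat.descFactorial] at h9
  have a7 : (a 7 : ℝ) = 146689299490406400 := by linarith
  have h10 := h' 10 (by norm_num)
  simp only [Finset.sum_range_succ, Finset.sum_range_zero, V] at h10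
  norm_num [Nat.descFactorial] at h10
  have a6 : (a 6 : ℝ) = 154554571254988800 := by linarith
  have h11 := h' 11 (by norm_num)
  simp only [Finset.sum_range_succ, Finset.sum_range_zero, V] at h11
  norm_num [Nat.descFactorial] at h11
  have a5 : (a 5 : ℝ) = 79659352571904000 := by linarith
  have h12 := h' 12 (by norm_num)
  simp only [Finset.sum_range_succ, Finset.sum_range_zero, V] at h12
  norm_num [Nat.descFactorial] at h12
  have a4 : (a 4 : ℝ) = 19314619527168000 := by linarith
  have h13 := h' 13 (by norm_num)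
  simp only [Finset.sum_range_succ, Finset.sum_range_zero, V] at h13
  norm_num [Nat.descFactorial] at h13
  have a3 : (a 3 : ℝ) = 2004440894668800 := by linarith
  have h14 := h' 14 (by norm_num)
  simp only [Finset.sum_range_succ, Finset.sum_range_zero, V] at h14
  norm_num [Nat.descFactorial] at h14
  have a2 : (a 2 : ℝ) = 73236035174400 := by linarith
  have h15 := h' 15 (by norm_num)
  simp only [Finset.sum_range_succ, Finset.sum_range_zero, V] at h15
  norm_num [Nat.descFactorial] at h15
  have a1 : (a 1 : ℝ) = 597793996800 := by linarith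
  have h16 := h' 16 (by norm_num)
  simp only [Finset.sum_range_succ, Finset.sum_range_zero, V] at h16
  norm_num [Nat.descFactorial] at h16
  have a0 : (a 0 : ℝ) = 0 := by linarith
  exact ⟨a0, a1, a2, a3, a4, a5, a6, a7, a8, a9, a10, a11, a12, a13, a14, a15⟩

end Pool.Agent.H258Z.Jack
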